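import Pool.Agent.Helper108.Emb.Dich

set_option autoImplicit false

namespace Pool.Agent.Helper108.Emb

open Quaternion Topology Set Metric Filter
open scoped ContDiff
open Pool.Agent.Helper253 Pool.Agent.Helper253.Net Pool.Agent.Helper253.Emb

theorem exists_dir (W : Web) : ∃ lo hi, Dir W lo hi := by
  have b2 : BddAbove (range W.θ2) := ⟨W.θ1 0, by
    rintro _ ⟨v, rfl⟩; linarith [W.hpos 0 v]⟩
  have b1 : BddAbove (range W.θ1) := ⟨W.θ2 0 + Real.pi, by
    rintro _ ⟨u, rfl⟩; linarith [W.hpi u 0]⟩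
  set lo := sSup (range W.θ2) with hlo
  set hi := sSup (range W.θ1) with hhi
  have h1 : ∀ v, W.θ2 v ≤ lo := fun v => le_csSup b2 (mem_range_self v)
  have h3 : ∀ u, W.θ1 u ≤ hi := fun u => le_csSup b1 (mem_range_self u)
  have h2 : ∀ u, lo ≤ W.θ1 u := fun u => csSup_le (range_nonempty _) (by
    rintro _ ⟨v, rfl⟩; linarith [W.hpos u v])
  have h4 : ∀ v, hi ≤ W.θ2 v + Real.pi := fun v => csSup_le (range_nonempty _) (by
    rintro _ ⟨u, rfl⟩; linarith [W.hpi u v])
  refine ⟨lo, hi, h1, h2, h3, h4, ?_, ?_⟩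
  · obtain ⟨u, hu⟩ := W.not_const_a lo
    exact lt_of_lt_of_le (lt_of_le_of_ne (h2 u) (Ne.symm hu)) (h3 u)
  · obtain ⟨v, hv⟩ := W.not_const_b lo
    have := lt_of_le_of_ne (h1 v) hv
    linarith [h4 v]

theorem cG_flip (W : Web) (φ v : ℝ) : cG W.swap.swap (φ + Real.pi) v = -cG W φ (-v) := by
  have e : W.swap.swap.G v = W.G (-v) := by
    show -(-W.G (-v)) = W.G (-v)
    rw [neg_neg]
  rw [cG, cG, e, ei_add_pi]
  simp only [cr, Complex.neg_re, Complex.neg_im]
  ring

theorem Dir.flip {W : Web} {lo hi : ℝ} (D : Dir W lo hi) :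
    Dir W.swap.swap (lo + Real.pi) (hi + Real.pi) where
  h1 v := by
    show W.θ2 (-v) + Real.pi ≤ lo + Real.pi
    linarith [D.h1 (-v)]
  h2 u := by
    show lo + Real.pi ≤ W.θ1 (-u) + Real.pi
    linarith [D.h2 (-u)]
  h3 u := by
    show W.θ1 (-u) + Real.pi ≤ hi + Real.pi
    linarith [D.h3 (-u)]
  h4 v := by
    show hi + Real.pi ≤ W.θ2 (-v) + Real.pi + Real.pi
    linarith [D.h4 (-v)]
  lt := by linarith [D.lt]
  lt' := by linarith [D.lt']

theorem Fam.flip {W : Web} {lo hi : ℝ} {u : ℕ → ℝ} (h : Fam W hi lo u) :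
    Fam W.swap.swap (lo + Real.pi) (hi + Real.pi) (fun n => -u n) := by
  refine ⟨by simpa using h.1, fun k hk => ?_⟩
  obtain ⟨r, hr, h2⟩ := h.2 k hk
  refine ⟨r, hr, ?_⟩
  filter_upwards [h2] with n hn
  obtain ⟨h3, h4⟩ := hn
  constructor
  · rw [cG_flip, cG_flip]
    have e1 : -(-u n) = u n := neg_neg _
    have e2 : -(-u n - k) = u n + k := by ring
    rw [e1, e2]; linarith
  · rw [cG_flip, cG_flip]
    have e1 : -(-u n) = u n := neg_neg _
    have e2 : -(-u n + k) = u n - k := by ring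
    rw [e1, e2]; linarith

/-- Asymptotic to a great circle. -/
def Circ (W : Web) (ψ : ℝ) (y : ℕ → ℝ) : Prop :=
  Tendsto (fun n => |y n|) atTop atTop ∧
    ∀ S > 0, ∀ ε > 0, ∃ N, ∀ n ≥ N, ∀ s, |s| ≤ S → ‖W.b (y n + s) - Ep ψ s * W.b (y n)‖ ≤ ε

theorem circ_of_str {W : Web} {φ ψ c : ℝ} (hc : 0 < c) (mφ : Monotone (cG W φ)) {y : ℕ → ℝ}
    (h : Str W φ y)
    (hs : ∀ x s, ‖W.b (x + s) - Ep ψ s * W.b x‖ ≤ 1 / c * |cG W φ (x + s) - cG W φ x|) :
    Circ W ψ y := by
  refine ⟨h.1, fun S hS ε hε => ?_⟩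
  obtain ⟨N, hN⟩ := eventually_atTop.1 (h.2 S hS (c * ε) (by positivity))
  refine ⟨N, fun n hn s hs' => (hs (y n) s).trans ?_⟩
  have h1 := hN n hn
  have h2 := abs_le.1 hs'
  have h3 := mφ (show y n + s ≤ y n + S by linarith)
  have h4 := mφ (show y n - S ≤ y n + s by linarith)
  have h5 := mφ (show y n ≤ y n + S by linarith)
  have h6 := mφ (show y n - S ≤ y n by linarith)
  have h7 : |cG W φ (y n + s) - cG W φ (y n)| ≤ c * ε := by
    rw [abs_le]; constructor <;> linarith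
  calc 1 / c * |cG W φ (y n + s) - cG W φ (y n)| ≤ 1 / c * (c * ε) :=
        mul_le_mul_of_nonneg_left h7 (by positivity)
    _ = ε := by field_simp

theorem Dir.circ_lo {W : Web} {lo hi : ℝ} (D : Dir W lo hi) {y : ℕ → ℝ} (h : Str W lo y) :
    Circ W lo y := by
  have hη : 0 < hi - lo := by linarith [D.lt]
  have hc : 0 < Real.sin ((hi - lo) / 2) :=
    Real.sin_pos_of_pos_of_lt_pi (by linarith) (by linarith [D.lt', Real.pi_pos])
  refine circ_of_str hc D.mono_lo h fun x s => ?_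
  have := W.straight_b (ψ := lo) (ε := -1) hc (by norm_num) (fun u => by
    rw [norm_ei_sub]
    have h1 := dir_compare (t := lo - W.θ2 u) (η := hi - lo) (by linarith [D.h1 u])
      (by linarith [D.h4 u]) hη
    have e1 : Real.sin ((W.θ2 u - lo) / 2) = -Real.sin ((lo - W.θ2 u) / 2) := by
      rw [← Real.sin_neg]; congr 1; ring
    have e2 : Real.sin (W.θ2 u - lo) = -Real.sin (lo - W.θ2 u) := by
      rw [← Real.sin_neg]; congr 1; ring
    rw [e1, e2, abs_neg]
    linarith) x s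
  refine this.trans (le_of_eq ?_)
  rw [cr_anti, cr_sub_left, abs_neg]
  rfl

theorem Dir.circ_hi {W : Web} {lo hi : ℝ} (D : Dir W lo hi) {y : ℕ → ℝ} (h : Str W hi y) :
    Circ W (hi - Real.pi) y := by
  have hη : 0 < hi - lo := by linarith [D.lt]
  have hc : 0 < Real.sin ((hi - lo) / 2) :=
    Real.sin_pos_of_pos_of_lt_pi (by linarith) (by linarith [D.lt', Real.pi_pos])
  refine circ_of_str hc D.mono_hi h fun x s => ?_
  have := W.straight_b (ψ := hi - Real.pi) (ε := 1) hc (by norm_num) (fun u => by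
    rw [norm_ei_sub]
    have h1 := dir_compare (t := W.θ2 u - (hi - Real.pi)) (η := hi - lo) (by linarith [D.h4 u])
      (by linarith [D.h1 u]) hη
    linarith) x s
  refine this.trans (le_of_eq ?_)
  have e : ei (hi - Real.pi) = -ei hi := by
    have h2 := ei_add_pi (hi - Real.pi)
    rw [sub_add_cancel] at h2
    rw [h2, neg_neg]
  have e2 : cr (ei (hi - Real.pi)) (W.G (x + s) - W.G x) = cG W hi (x + s) - cG W hi x := by
    rw [e, cG, cG]
    simp only [cr, Complex.neg_re, Complex.neg_im, Complex.sub_re, Complex.sub_im]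
    ring
  rw [e2]

/-- The second curve is asymptotic to a great circle, given the four sheets theorem. -/
theorem exists_circ
    (four : ∀ (W : Web) (lo hi : ℝ), Dir W lo hi → ∀ u : ℕ → ℝ, Fam W lo hi u → False)
    (W : Web) : ∃ ψ y, Circ W ψ y := by
  obtain ⟨lo, hi, D⟩ := exists_dir W
  rcases D.dichotomy with ⟨u, h⟩ | ⟨u, h⟩ | ⟨u, h⟩ | ⟨u, h⟩
  · exact (four W lo hi D u h).elim
  · exact (four _ _ _ D.flip _ h.flip).elim
  · exact ⟨_, _, D.circ_hi h⟩
  · exact ⟨_, _, D.circ_lo h⟩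

/-- No web exists, given the four sheets theorem. -/
theorem no_web_of
    (four : ∀ (W : Web) (lo hi : ℝ), Dir W lo hi → ∀ u : ℕ → ℝ, Fam W lo hi u → False)
    (W : Web) : False := by
  obtain ⟨ψ2, y, hy1, hy2⟩ := exists_circ four W
  obtain ⟨ψ1, x, hx1, hx2⟩ := exists_circ four W.swap
  refine no_circles W (x := fun n => -x n) (y := y) (ψ1 := ψ1) (ψ2 := ψ2) (by simpa using hx1)
    (fun S hS ε hε => ?_) hy2
  obtain ⟨N, hN⟩ := hx2 S hS ε hε
  refine ⟨N, fun n hn s hs => ?_⟩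
  have h1 := hN n hn (-s) (by rwa [abs_neg])
  have e1 : W.swap.b (x n + -s) = star (W.a (-x n + s)) := by
    show star (W.a (-(x n + -s))) = _
    congr 2; ring
  have e2 : W.swap.b (x n) = star (W.a (-x n)) := rfl
  rw [e1, e2] at h1
  have e3 : W.a (-x n + s) - W.a (-x n) * Ep ψ1 s =
      star (star (W.a (-x n + s)) - Ep ψ1 (-s) * star (W.a (-x n))) := by
    rw [star_sub, star_mul, star_star, star_star, star_Ep, neg_neg]
  rw [e3, Quaternion.norm_star]
  exact h1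

end Pool.Agent.Helper108.Emb
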