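import Pool.Agent.Helper253.Emb.Par

set_option autoImplicit false

namespace Pool.Agent.Helper108.Emb

open Quaternion Topology Set Metric Filter
open scoped ContDiff
open Pool.Agent.Helper253 Pool.Agent.Helper253.Net Pool.Agent.Helper253.Emb

/-- A continuous function with values in the zero set of a cubic is constant. -/
theorem cubic_const {f : ℝ → ℝ} (hf : Continuous f) {d : ℝ} (h : ∀ s, f s * (d - f s ^ 2) = 0)
    (s t : ℝ) : f s = f t := by
  wlog hst : f s ≤ f t generalizing s t
  · exact (this t s (le_of_not_ge hst)).symm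
  by_contra hne
  have hlt : f s < f t := lt_of_le_of_ne hst hne
  set η : ℝ := (f t - f s) / 3 with hη
  have hη0 : 0 < η := by rw [hη]; linarith
  obtain ⟨u, hu⟩ : f s + η ∈ range f :=
    mem_range_of_exists_le_of_exists_ge hf ⟨s, by linarith⟩ ⟨t, by rw [hη]; linarith⟩
  obtain ⟨v, hv⟩ : f s + 2 * η ∈ range f :=
    mem_range_of_exists_le_of_exists_ge hf ⟨s, by linarith⟩ ⟨t, by rw [hη]; linarith⟩
  have h0 := h s
  have h1 := h u
  have h2 := h v
  have h3 := h t
  have ht : f t = f s + 3 * η := by rw [hη]; ring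
  rw [hu] at h1
  rw [hv] at h2
  rw [ht] at h3
  have h4 : η ^ 3 = 0 := by linear_combination (1 / 6) * (h0 - 3 * h1 + 3 * h2 - h3)
  have := pow_pos hη0 3
  linarith

/-- If the level is constant along the curve, the direction is constant. -/
theorem const_case {c : ℝ → ℍ[ℝ]} {φ : ℝ → ℝ} (uc : ∀ s, ‖c s‖ = 1)
    (dc : ∀ s, HasDerivAt c (c s * hat (ei (φ s))) s) (hφ : ContDiff ℝ ∞ φ) {κ : ℝ}
    (hk : ∀ s, ‖k2 (c s)‖ = κ) (s t : ℝ) : φ s = φ t := by
  have d1 : ∀ s, HasDerivAt (fun s => k1 (c s)) (k1 (c s * hat (ei (φ s)))) s := fun s =>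
    k1.hasFDerivAt.comp_hasDerivAt s (dc s)
  have d2 : ∀ s, HasDerivAt (fun s => k2 (c s)) (k2 (c s * hat (ei (φ s)))) s := fun s =>
    k2.hasFDerivAt.comp_hasDerivAt s (dc s)
  have dp : ∀ s, HasDerivAt (fun s => (c s).re)
      (-(Real.cos (φ s)) * (c s).imI - Real.sin (φ s) * (c s).imJ) s := fun s => by
    refine (hasDerivAt_re (d1 s)).congr_deriv ?_
    rw [k1_re]; simp [ei_re, ei_im]; ring
  have dq : ∀ s, HasDerivAt (fun s => (c s).imI)
      (Real.cos (φ s) * (c s).re - Real.sin (φ s) * (c s).imK) s := fun s => by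
    refine (hasDerivAt_im (d1 s)).congr_deriv ?_
    rw [k1_im]; simp [ei_re, ei_im]; ring
  have dr : ∀ s, HasDerivAt (fun s => (c s).imJ)
      (Real.cos (φ s) * (c s).imK + Real.sin (φ s) * (c s).re) s := fun s => by
    refine (hasDerivAt_re (d2 s)).congr_deriv ?_
    rw [k2_re]; simp [ei_re, ei_im]; ring
  have dt : ∀ s, HasDerivAt (fun s => (c s).imK)
      (-(Real.cos (φ s)) * (c s).imJ + Real.sin (φ s) * (c s).imI) s := fun s => by
    refine (hasDerivAt_im (d2 s)).congr_deriv ?_
    rw [k2_im]; simp [ei_re, ei_im]; ring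
  have cc : Continuous c := continuous_iff_continuousAt.2 fun s => (dc s).continuousAt
  have hk' : ∀ s, (c s).imJ ^ 2 + (c s).imK ^ 2 = κ ^ 2 := fun s => by
    rw [← hk s, ← Complex.normSq_eq_norm_sq, Complex.normSq_apply, k2_re, k2_im]; ring
  have hn : ∀ s, (c s).re ^ 2 + (c s).imI ^ 2 + (c s).imJ ^ 2 + (c s).imK ^ 2 = 1 := fun s => by
    rw [← norm_sq_eq, uc]; norm_num
  set T : ℝ → ℝ := fun s => (c s).re * (c s).imJ + (c s).imI * (c s).imK with hT
  -- first derivative
  have hT0 : ∀ s, Real.sin (φ s) * T s = 0 := by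
    intro s
    have h1 := ((dr s).pow 2).add ((dt s).pow 2)
    have h2 : ((fun s => (c s).imJ) ^ 2 + (fun s => (c s).imK) ^ 2) = fun _ => κ ^ 2 :=
      funext fun s => hk' s
    rw [h2] at h1
    have h3 := h1.unique (hasDerivAt_const s (κ ^ 2))
    simp only [hT]
    simp at h3
    linear_combination (1 / 2) * h3
  -- second derivative
  have hdT : ∀ s, HasDerivAt T
      (2 * Real.cos (φ s) * ((c s).re * (c s).imK - (c s).imI * (c s).imJ) +
        Real.sin (φ s) * ((c s).re ^ 2 + (c s).imI ^ 2 - (c s).imJ ^ 2 - (c s).imK ^ 2)) s := by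
    intro s
    refine (((dp s).mul (dr s)).add ((dq s).mul (dt s))).congr_deriv ?_
    ring
  have key : ∀ s, Real.sin (φ s) * ((1 - (1 - 2 * κ ^ 2) ^ 2) - Real.sin (φ s) ^ 2) = 0 := by
    intro s
    by_cases hs : Real.sin (φ s) = 0
    · rw [hs]; ring
    have hTs : T s = 0 := by
      rcases mul_eq_zero.1 (hT0 s) with h | h
      · exact absurd h hs
      · exact h
    have hev : ∀ᶠ y in 𝓝 s, T y = 0 := by
      have h1 : ContinuousAt (fun y => Real.sin (φ y)) s :=
        (Real.continuous_sin.comp hφ.continuous).continuousAt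
      filter_upwards [h1.eventually_ne hs] with y hy
      rcases mul_eq_zero.1 (hT0 y) with h | h
      · exact absurd h hy
      · exact h
    have h2 : HasDerivAt T 0 s :=
      (hasDerivAt_const s (0 : ℝ)).congr_of_eventuallyEq (by
        filter_upwards [hev] with y hy
        exact hy)
    have h3 := (hdT s).unique h2
    have h4 := hk' s
    have h5 := hn s
    simp only [hT] at hTs
    set p := (c s).re
    set q := (c s).imI
    set r := (c s).imJ
    set u := (c s).imK
    set S : ℝ := p * u - q * r with hS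
    set C := Real.cos (φ s)
    set sn := Real.sin (φ s)
    have hCS : sn ^ 2 + C ^ 2 = 1 := Real.sin_sq_add_cos_sq _
    have h6 : S ^ 2 = κ ^ 2 * (1 - κ ^ 2) := by
      have h7 : S ^ 2 + (p * r + q * u) ^ 2 = (p ^ 2 + q ^ 2) * (r ^ 2 + u ^ 2) := by
        rw [hS]; ring
      rw [hTs] at h7
      have h8 : p ^ 2 + q ^ 2 = 1 - κ ^ 2 := by linarith
      rw [h8, h4] at h7
      linarith
    have h7 : 2 * C * S + sn * (1 - 2 * κ ^ 2) = 0 := by
      have h8 : p ^ 2 + q ^ 2 - r ^ 2 - u ^ 2 = 1 - 2 * κ ^ 2 := by linarith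
      rw [← h8]
      linarith
    have h8 : sn ^ 2 * (1 - 2 * κ ^ 2) ^ 2 = 4 * C ^ 2 * S ^ 2 := by
      have h9 : sn * (1 - 2 * κ ^ 2) = -(2 * C * S) := by linarith
      calc sn ^ 2 * (1 - 2 * κ ^ 2) ^ 2 = (sn * (1 - 2 * κ ^ 2)) ^ 2 := by ring
        _ = 4 * C ^ 2 * S ^ 2 := by rw [h9]; ring
    rw [h6] at h8
    have h9 : (1 - (1 - 2 * κ ^ 2) ^ 2) - sn ^ 2 = 0 := by
      have hC2 : C ^ 2 = 1 - sn ^ 2 := by linarith
      rw [hC2] at h8
      linear_combination (-1) * h8
    rw [h9, mul_zero]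
  have hsc : Continuous (fun s => Real.sin (φ s)) := Real.continuous_sin.comp hφ.continuous
  have hconst := cubic_const hsc key
  have hφd : ∀ s, HasDerivAt φ (deriv φ s) s := fun s =>
    (hφ.differentiable (by simp) s).hasDerivAt
  have hφ0 : ∀ s, deriv φ s = 0 := by
    intro s
    have h1 : HasDerivAt (fun s => Real.sin (φ s)) (Real.cos (φ s) * deriv φ s) s :=
      (hφd s).sin
    have h2 : (fun s => Real.sin (φ s)) = fun _ => Real.sin (φ 0) :=
      funext fun y => hconst y 0
    rw [h2] at h1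
    have h3 := h1.unique (hasDerivAt_const s (Real.sin (φ 0)))
    rcases mul_eq_zero.1 h3 with h4 | h4
    · -- the cosine vanishes everywhere
      have h5 : ∀ y, Real.cos (φ y) = 0 := by
        intro y
        have h6 := Real.sin_sq_add_cos_sq (φ y)
        have h7 := Real.sin_sq_add_cos_sq (φ s)
        rw [hconst y s] at h6
        rw [h4] at h7
        have : Real.cos (φ y) ^ 2 = 0 := by linarith
        exact pow_eq_zero_iff (two_ne_zero) |>.1 this
      have h6 : HasDerivAt (fun s => Real.cos (φ s)) (-Real.sin (φ s) * deriv φ s) s :=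
        (hφd s).cos
      have h7 : (fun s => Real.cos (φ s)) = fun _ => (0 : ℝ) := funext h5
      rw [h7] at h6
      have h8 := h6.unique (hasDerivAt_const s (0 : ℝ))
      rcases mul_eq_zero.1 h8 with h9 | h9
      · exfalso
        have h10 := Real.sin_sq_add_cos_sq (φ s)
        rw [h4] at h10
        have : Real.sin (φ s) = 0 := by linarith
        rw [this] at h10
        norm_num at h10
      · exact h9
    · exact h4
  exact const_of_deriv (fun s => by
    have := hφd s
    rwa [hφ0 s] at this) s t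

end Pool.Agent.Helper108.Emb
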