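import Pool.Agent.Helper108.Emb.Hit
import Pool.Agent.Helper108.Emb.ConstCase
import Pool.Agent.Helper253.Emb.Sym

set_option autoImplicit false

namespace Pool.Agent.Helper108.Emb

open Quaternion Topology Set Metric Filter
open scoped ContDiff
open Pool.Agent.Helper253 Pool.Agent.Helper253.Net Pool.Agent.Helper253.Emb

theorem cancel1 {q : ℍ[ℝ]} (h : ‖q‖ = 1) (x : ℍ[ℝ]) : q * (star q * x) = x := by
  rw [← mul_assoc, self_mul_star1 h, one_mul]

theorem cancel2 {q : ℍ[ℝ]} (h : ‖q‖ = 1) (x : ℍ[ℝ]) : star q * (q * x) = x := by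
  rw [← mul_assoc, star_mul_self1 h, one_mul]

theorem close3 {P P' U R R' : ℍ[ℝ]} {ε : ℝ} (uP : ‖P'‖ = 1) (uU : ‖U‖ = 1) (uR : ‖R‖ = 1)
    (h1 : ‖P - P'‖ ≤ ε) (h2 : ‖R - R'‖ ≤ ε) : ‖P * U * R - P' * U * R'‖ ≤ 2 * ε := by
  have e : P * U * R - P' * U * R' = (P - P') * U * R + P' * U * (R - R') := by noncomm_ring
  rw [e]
  refine (norm_add_le _ _).trans ?_
  simp only [norm_mul, uP, uU, uR, one_mul, mul_one]
  linarith

theorem Ei_star_Rk (ψ x : ℝ) : Ei (-x) * star (Rk ψ) = star (Rk ψ) * Ep ψ (-x) := by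
  have h := congrArg star (Ep_Rk ψ x)
  rw [star_mul, star_mul, star_Ep, star_Ei] at h
  exact h.symm

theorem nearP (ψ x : ℝ) (a' A : ℍ[ℝ]) :
    ‖star (Rk ψ) * star a' - Ei (-x) * star (Rk ψ) * star A‖ = ‖a' - A * Ep ψ x‖ := by
  have e : star (Rk ψ) * star a' - Ei (-x) * star (Rk ψ) * star A =
      star (Rk ψ) * star (a' - A * Ep ψ x) := by
    rw [Ei_star_Rk, star_sub, star_mul, star_Ep, mul_sub, mul_assoc]
  rw [e, norm_mul, Quaternion.norm_star, Quaternion.norm_star, norm_Rk, one_mul]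

theorem nearR (ψ y : ℝ) (b' : ℍ[ℝ]) {B : ℍ[ℝ]} (uB : ‖B‖ = 1) :
    ‖b' * star B * Rk ψ - Rk ψ * Ei y‖ = ‖b' - Ep ψ y * B‖ := by
  have e : b' * star B * Rk ψ - Rk ψ * Ei y = (b' - Ep ψ y * B) * star B * Rk ψ := by
    rw [← Ep_Rk, sub_mul, sub_mul, mul_assoc (Ep ψ y), self_mul_star1 uB, mul_one]
  rw [e, norm_mul, norm_mul, Quaternion.norm_star, norm_Rk, uB, mul_one, mul_one]

theorem nearR2 (ψ y : ℝ) (b' B : ℍ[ℝ]) :
    ‖star b' * Rk ψ - star B * Rk ψ * Ei y‖ = ‖b' - Ep ψ (-y) * B‖ := by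
  have e : star b' * Rk ψ - star B * Rk ψ * Ei y = star (b' - Ep ψ (-y) * B) * Rk ψ := by
    rw [star_sub, star_mul, star_Ep, neg_neg, sub_mul, mul_assoc (star B) (Rk ψ), ← Ep_Rk,
      mul_assoc (star B) (Ep ψ y)]
  rw [e, norm_mul, Quaternion.norm_star, norm_Rk, mul_one]

/-- Limits of the two factors along great circles. -/
structure Lim (W : Web) (ψ1 ψ2 : ℝ) where
  x : ℕ → ℝ
  y : ℕ → ℝ
  A : ℍ[ℝ]
  B : ℍ[ℝ]
  uA : ‖A‖ = 1
  uB : ‖B‖ = 1
  hx : Tendsto (fun n => |x n|) atTop atTop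
  hA : ∀ S > 0, ∀ ε > 0, ∃ N, ∀ n ≥ N, ∀ s, |s| ≤ S → ‖W.a (x n + s) - A * Ep ψ1 s‖ ≤ ε
  hB : ∀ S > 0, ∀ ε > 0, ∃ N, ∀ n ≥ N, ∀ s, |s| ≤ S → ‖W.b (y n + s) - Ep ψ2 s * B‖ ≤ ε

namespace Lim

variable {W : Web} {ψ1 ψ2 : ℝ} (L : Lim W ψ1 ψ2)

noncomputable def g (s : ℝ) : ℍ[ℝ] := star (Rk ψ1) * star L.A * W.a s * Rk ψ2
noncomputable def h (v : ℝ) : ℍ[ℝ] := star (Rk ψ1) * W.b v * star L.B * Rk ψ2
noncomputable def w (s v : ℝ) : ℍ[ℝ] :=
  star (Rk ψ1) * star L.A * (W.a s * W.b v) * (star L.B * Rk ψ2)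

noncomputable def q0 (_ : Lim W ψ1 ψ2) : ℍ[ℝ] := star (Rk ψ1) * Rk ψ2

theorem norm_g (s : ℝ) : ‖L.g s‖ = 1 := by
  simp only [g, norm_mul, Quaternion.norm_star, norm_Rk, L.uA, W.ua, mul_one]

theorem norm_h (s : ℝ) : ‖L.h s‖ = 1 := by
  simp only [h, norm_mul, Quaternion.norm_star, norm_Rk, L.uB, W.ub, mul_one]

theorem norm_w (s v : ℝ) : ‖L.w s v‖ = 1 := by
  simp only [w, norm_mul, Quaternion.norm_star, norm_Rk, L.uA, L.uB, W.ua, W.ub, mul_one]

theorem norm_q0 : ‖L.q0‖ = 1 := by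
  simp only [q0, norm_mul, Quaternion.norm_star, norm_Rk, mul_one]

theorem g_cont : Continuous L.g := by
  have := W.cont_a
  unfold g; fun_prop

theorem h_cont : Continuous L.h := by
  have := W.cont_b
  unfold h; fun_prop

theorem g_near (s : ℝ) : ‖L.g s - L.q0‖ = ‖W.a s - L.A‖ := by
  have e : L.g s - L.q0 = star (Rk ψ1) * star L.A * (W.a s - L.A) * Rk ψ2 := by
    simp only [g, q0]
    rw [mul_sub, sub_mul, mul_assoc (star (Rk ψ1)) (star L.A) L.A, star_mul_self1 L.uA, mul_one]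
  rw [e]
  simp only [norm_mul, Quaternion.norm_star, norm_Rk, L.uA, mul_one, one_mul]

theorem h_near (v : ℝ) : ‖L.h v - L.q0‖ = ‖W.b v - L.B‖ := by
  have e : L.h v - L.q0 = star (Rk ψ1) * (W.b v - L.B) * star L.B * Rk ψ2 := by
    simp only [h, q0]
    rw [mul_sub, sub_mul, sub_mul, mul_assoc (star (Rk ψ1)) L.B (star L.B),
      self_mul_star1 L.uB, mul_one]
  rw [e]
  simp only [norm_mul, Quaternion.norm_star, norm_Rk, L.uB, mul_one, one_mul]

theorem w_near_g (s v : ℝ) : ‖L.w s v - L.g s‖ = ‖W.b v - L.B‖ := by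
  have e : L.w s v - L.g s =
      star (Rk ψ1) * star L.A * W.a s * ((W.b v - L.B) * star L.B) * Rk ψ2 := by
    simp only [w, g]
    rw [sub_mul, self_mul_star1 L.uB]
    noncomm_ring
  rw [e]
  simp only [norm_mul, Quaternion.norm_star, norm_Rk, L.uB, L.uA, W.ua, mul_one, one_mul]

theorem w_near_h (s v : ℝ) : ‖L.w s v - L.h v‖ = ‖W.a s - L.A‖ := by
  have e : L.w s v - L.h v =
      star (Rk ψ1) * (star L.A * (W.a s - L.A)) * W.b v * star L.B * Rk ψ2 := by
    simp only [w, h]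
    rw [mul_sub (star L.A), star_mul_self1 L.uA]
    noncomm_ring
  rw [e]
  simp only [norm_mul, Quaternion.norm_star, norm_Rk, L.uB, L.uA, W.ub, mul_one, one_mul]

theorem lim_a {ε : ℝ} (hε : 0 < ε) : ∃ N, ∀ n ≥ N, ‖W.a (L.x n) - L.A‖ ≤ ε := by
  obtain ⟨N, hN⟩ := L.hA 1 one_pos ε hε
  refine ⟨N, fun n hn => ?_⟩
  have := hN n hn 0 (by norm_num)
  rwa [Ep_zero, mul_one, add_zero] at this

theorem lim_b {ε : ℝ} (hε : 0 < ε) : ∃ N, ∀ n ≥ N, ‖W.b (L.y n) - L.B‖ ≤ ε := by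
  obtain ⟨N, hN⟩ := L.hB 1 one_pos ε hε
  refine ⟨N, fun n hn => ?_⟩
  have := hN n hn 0 (by norm_num)
  rwa [Ep_zero, one_mul, add_zero] at this

theorem k2_close (p q : ℍ[ℝ]) : |‖k2 p‖ - ‖k2 q‖| ≤ ‖p - q‖ := by
  have h1 := abs_norm_sub_norm_le (k2 p) (k2 q)
  rw [← map_sub] at h1
  exact h1.trans (norm_k2_le _)

theorem path_bdd {p : ℝ → ℝ} (hp : Continuous p) : ∃ K, ∀ t ∈ Icc (0 : ℝ) 1, |p t| ≤ K := by
  obtain ⟨t0, -, ht0⟩ := (isCompact_Icc (a := (0 : ℝ)) (b := 1)).exists_isMaxOn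
    ⟨0, by constructor <;> norm_num⟩ (show ContinuousOn (fun t => |p t|) _ from
      hp.abs.continuousOn)
  exact ⟨_, fun t ht => ht0 ht⟩

/-- First crossing lemma. -/
theorem core1 {p : ℝ → ℝ} (hp : Continuous p) {v0 : ℝ} (h0 : ‖k2 (L.h v0)‖ < ‖k2 (L.g (p 0))‖)
    (h1 : ‖k2 (L.g (p 1))‖ < ‖k2 (L.h v0)‖) : False := by
  obtain ⟨C, hC, ε, hε, H⟩ := hit (w := fun t => L.g (p t)) (L.g_cont.comp hp)
    (fun t => L.norm_g _) (L.norm_h v0) h0 h1
  obtain ⟨K, hK⟩ := path_bdd hp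
  obtain ⟨N1, hN1⟩ := L.hA (C + 1) (by linarith) (ε / 2) (by positivity)
  obtain ⟨N2, hN2⟩ := L.hB (C + 1) (by linarith) (ε / 2) (by positivity)
  obtain ⟨n, hn1, hn2, hn3⟩ := ((eventually_ge_atTop N1).and ((eventually_ge_atTop N2).and
    (L.hx.eventually (eventually_gt_atTop (K + C))))).exists
  set X := L.x n with hX
  set Y := L.y n with hY
  obtain ⟨t, x, y, ht, hxC, hyC, hΦ⟩ := H (fun t x y => star (Rk ψ1) * star (W.a (X + x)) *
      W.a (p t) * (W.b (Y + y) * star L.B * Rk ψ2))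
    (by
      have ca := W.cont_a
      have cb := W.cont_b
      fun_prop)
    (fun t x y => by
      simp only [norm_mul, Quaternion.norm_star, norm_Rk, L.uB, W.ua, W.ub, mul_one])
    (fun t x y ht hx hy => by
      have e : Ei (-x) * L.g (p t) * Ei y = Ei (-x) * star (Rk ψ1) * star L.A * W.a (p t) *
          (Rk ψ2 * Ei y) := by
        simp only [g, mul_assoc]
      rw [e]
      have := close3 (P := star (Rk ψ1) * star (W.a (X + x)))
        (P' := Ei (-x) * star (Rk ψ1) * star L.A) (U := W.a (p t))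
        (R := W.b (Y + y) * star L.B * Rk ψ2) (R' := Rk ψ2 * Ei y) (ε := ε / 2)
        (by simp only [norm_mul, Quaternion.norm_star, norm_Rk, norm_Ei, L.uA, mul_one])
        (W.ua _)
        (by simp only [norm_mul, Quaternion.norm_star, norm_Rk, L.uB, W.ub, mul_one])
        (by rw [nearP]; exact hN1 n hn1 x (by linarith))
        (by rw [nearR _ _ _ L.uB]; exact hN2 n hn2 y (by linarith))
      linarith)
  have hab : W.a (p t) * W.b (Y + y) = W.a (X + x) * W.b v0 := by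
    have h2 := congrArg (fun q => W.a (X + x) * (Rk ψ1 * q * star (Rk ψ2) * L.B)) hΦ
    simp only [h, mul_assoc] at h2
    rw [cancel1 (norm_Rk ψ1), cancel1 (norm_Rk ψ1), cancel1 (norm_Rk ψ2),
      star_mul_self1 L.uB, cancel1 (W.ua _), mul_one, mul_one] at h2
    exact h2
  have h3 := (W.abi _ _ _ _ hab).1
  have h4 := hK t ht
  have h5 : |X| ≤ |p t| + |x| := by
    have : X = p t - x := by rw [h3]; ring
    rw [this]; exact abs_sub _ _
  linarith

/-- Second crossing lemma. -/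
theorem core2 {p p' : ℝ → ℝ} (hp : Continuous p) (hp' : Continuous p')
    (h0 : ‖k2 L.q0‖ < ‖k2 (L.w (p 0) (p' 0))‖)
    (h1 : ‖k2 (L.w (p 1) (p' 1))‖ < ‖k2 L.q0‖) : False := by
  obtain ⟨C, hC, ε, hε, H⟩ := hit (w := fun t => L.w (p t) (p' t)) (by
      have ca := W.cont_a
      have cb := W.cont_b
      unfold w
      fun_prop)
    (fun t => L.norm_w _ _) L.norm_q0 h0 h1
  obtain ⟨K, hK⟩ := path_bdd hp
  obtain ⟨N1, hN1⟩ := L.hA (C + 1) (by linarith) (ε / 2) (by positivity)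
  obtain ⟨N2, hN2⟩ := L.hB (C + 1) (by linarith) (ε / 2) (by positivity)
  obtain ⟨n, hn1, hn2, hn3⟩ := ((eventually_ge_atTop N1).and ((eventually_ge_atTop N2).and
    (L.hx.eventually (eventually_gt_atTop (K + C))))).exists
  set X := L.x n with hX
  set Y := L.y n with hY
  obtain ⟨t, x, y, ht, hxC, hyC, hΦ⟩ := H (fun t x y => star (Rk ψ1) * star (W.a (X + x)) *
      (W.a (p t) * W.b (p' t)) * (star (W.b (Y + -y)) * Rk ψ2))
    (by
      have ca := W.cont_a
      have cb := W.cont_b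
      fun_prop)
    (fun t x y => by
      simp only [norm_mul, Quaternion.norm_star, norm_Rk, W.ua, W.ub, mul_one])
    (fun t x y ht hx hy => by
      have e : Ei (-x) * L.w (p t) (p' t) * Ei y = Ei (-x) * star (Rk ψ1) * star L.A *
          (W.a (p t) * W.b (p' t)) * (star L.B * Rk ψ2 * Ei y) := by
        simp only [w, mul_assoc]
      rw [e]
      have := close3 (P := star (Rk ψ1) * star (W.a (X + x)))
        (P' := Ei (-x) * star (Rk ψ1) * star L.A) (U := W.a (p t) * W.b (p' t))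
        (R := star (W.b (Y + -y)) * Rk ψ2) (R' := star L.B * Rk ψ2 * Ei y) (ε := ε / 2)
        (by simp only [norm_mul, Quaternion.norm_star, norm_Rk, norm_Ei, L.uA, mul_one])
        (by rw [norm_mul, W.ua, W.ub, mul_one])
        (by simp only [norm_mul, Quaternion.norm_star, norm_Rk, W.ub, mul_one])
        (by rw [nearP]; exact hN1 n hn1 x (by linarith))
        (by rw [nearR2]; exact hN2 n hn2 (-y) (by rw [abs_neg]; linarith))
      linarith)
  have hab : W.a (p t) * W.b (p' t) = W.a (X + x) * W.b (Y + -y) := by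
    have h2 := congrArg (fun q => W.a (X + x) * (Rk ψ1 * q * star (Rk ψ2) * W.b (Y + -y))) hΦ
    simp only [q0, mul_assoc] at h2
    rw [cancel1 (norm_Rk ψ1), cancel1 (norm_Rk ψ1), cancel1 (norm_Rk ψ2),
      star_mul_self1 (W.ub _), cancel1 (W.ua _), mul_one] at h2
    exact h2
  have h3 := (W.abi _ _ _ _ hab).1
  have h4 := hK t ht
  have h5 : |X| ≤ |p t| + |x| := by
    have : X = p t - x := by rw [h3]; ring
    rw [this]; exact abs_sub _ _
  linarith

theorem nonconst_g : ∃ u, ‖k2 (L.g u)‖ ≠ ‖k2 L.q0‖ := by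
  by_contra hcon
  push Not at hcon
  have hc := const_case (c := L.g) (φ := fun s => W.θ1 s - ψ2) L.norm_g (fun s => by
      have h1 := ((W.da s).const_mul (star (Rk ψ1) * star L.A)).mul_const (Rk ψ2)
      refine h1.congr_deriv ?_
      have e : star (Rk ψ1) * star L.A * (W.a s * hat (ei (W.θ1 s))) * Rk ψ2 =
          star (Rk ψ1) * star L.A * W.a s * (hat (ei (W.θ1 s)) * Rk ψ2) := by
        simp only [mul_assoc]
      rw [e, Rk_conj, g]
      simp only [mul_assoc]) (W.c1.sub contDiff_const) hcon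
  obtain ⟨u, hu⟩ := W.not_const_a (W.θ1 0)
  have := hc u 0
  exact hu (by linarith)

theorem k2_star (q : ℍ[ℝ]) : ‖k2 (star q)‖ = ‖k2 q‖ := by
  have : k2 (star q) = -k2 q := by
    apply Complex.ext <;> simp [k2_re, k2_im]
  rw [this, norm_neg]

theorem nonconst_h : ∃ v, ‖k2 (L.h v)‖ ≠ ‖k2 L.q0‖ := by
  by_contra hcon
  push Not at hcon
  have hc := const_case (c := fun v => star (L.h v)) (φ := fun s => W.θ2 s - ψ1 + Real.pi)
    (fun v => by rw [Quaternion.norm_star, L.norm_h]) (fun s => by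
      have h1 := (((W.db s).const_mul (star (Rk ψ1))).mul_const (star L.B)).mul_const (Rk ψ2)
      refine (hasDerivAt_star h1).congr_deriv ?_
      have e : star (Rk ψ1) * (hat (ei (W.θ2 s)) * W.b s) * star L.B * Rk ψ2 =
          hat (ei (W.θ2 s - ψ1)) * L.h s := by
        rw [h, ← mul_assoc (star (Rk ψ1)) (hat _), star_Rk_hat]
        simp only [mul_assoc]
      rw [e, star_mul, star_hat, ei_add_pi, map_neg])
    ((W.c2.sub contDiff_const).add contDiff_const) (κ := ‖k2 L.q0‖) (fun s => by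
      rw [k2_star]; exact hcon s)
  obtain ⟨u, hu⟩ := W.not_const_b (W.θ2 0)
  have := hc u 0
  exact hu (by linarith)

theorem lin_cont (a b : ℝ) : Continuous (fun t : ℝ => a + t * (b - a)) := by fun_prop

theorem false (L : Lim W ψ1 ψ2) : False := by
  obtain ⟨us, hus⟩ := L.nonconst_g
  obtain ⟨vs, hvs⟩ := L.nonconst_h
  set κ := ‖k2 L.q0‖ with hκ
  have ga : ∀ ε > 0, ∃ n, |‖k2 (L.g (L.x n))‖ - κ| ≤ ε ∧ ‖W.a (L.x n) - L.A‖ ≤ ε := by
    intro ε hε
    obtain ⟨N, hN⟩ := L.lim_a hε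
    refine ⟨N, ?_, hN N le_rfl⟩
    refine (k2_close _ _).trans ?_
    rw [L.g_near]
    exact hN N le_rfl
  have gb : ∀ ε > 0, ∃ n, |‖k2 (L.h (L.y n))‖ - κ| ≤ ε ∧ ‖W.b (L.y n) - L.B‖ ≤ ε := by
    intro ε hε
    obtain ⟨N, hN⟩ := L.lim_b hε
    refine ⟨N, ?_, hN N le_rfl⟩
    refine (k2_close _ _).trans ?_
    rw [L.h_near]
    exact hN N le_rfl
  have hhc : Continuous (fun v => ‖k2 (L.h v)‖) := (k2.continuous.comp L.h_cont).norm
  rcases lt_or_gt_of_ne hus with h1 | h1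
  · rcases lt_or_gt_of_ne hvs with h2 | h2
    · -- both smaller
      set m := max ‖k2 (L.g us)‖ ‖k2 (L.h vs)‖ with hm
      have hmκ : m < κ := max_lt h1 h2
      have hm1 : ‖k2 (L.g us)‖ ≤ m := le_max_left _ _
      have hm2 : ‖k2 (L.h vs)‖ ≤ m := le_max_right _ _
      obtain ⟨n, hn, -⟩ := gb ((κ - m) / 2) (by linarith)
      obtain ⟨n', hn', -⟩ := ga ((κ - m) / 4) (by linarith)
      rw [abs_le] at hn hn'
      obtain ⟨v0, hv0⟩ : (κ + m) / 2 ∈ range (fun v => ‖k2 (L.h v)‖) :=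
        mem_range_of_exists_le_of_exists_ge hhc ⟨vs, by linarith⟩
          ⟨L.y n, by linarith [hn.1]⟩
      simp only at hv0
      refine L.core1 (p := fun t => L.x n' + t * (us - L.x n')) (lin_cont _ _) (v0 := v0) ?_ ?_
      · rw [hv0]; simp only [zero_mul, add_zero]; linarith [hn'.1]
      · rw [hv0]; simp only [one_mul, add_sub_cancel]; linarith
    · -- g smaller, h bigger
      obtain ⟨n, -, hn⟩ := gb ((κ - ‖k2 (L.g us)‖) / 2) (by linarith)
      obtain ⟨n', -, hn'⟩ := ga ((‖k2 (L.h vs)‖ - κ) / 2) (by linarith)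
      refine L.core2 (p := fun t => L.x n' + t * (us - L.x n'))
        (p' := fun t => vs + t * (L.y n - vs)) (lin_cont _ _) (lin_cont _ _) ?_ ?_
      · simp only [zero_mul, add_zero]
        have h3 := k2_close (L.w (L.x n') vs) (L.h vs)
        rw [L.w_near_h] at h3
        have h4 := abs_le.1 (h3.trans hn')
        rw [← hκ]; linarith [h4.1]
      · simp only [one_mul, add_sub_cancel]
        have h3 := k2_close (L.w us (L.y n)) (L.g us)
        rw [L.w_near_g] at h3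
        have h4 := abs_le.1 (h3.trans hn)
        rw [← hκ]; linarith [h4.2]
  · rcases lt_or_gt_of_ne hvs with h2 | h2
    · -- g bigger, h smaller
      obtain ⟨n, -, hn⟩ := gb ((‖k2 (L.g us)‖ - κ) / 2) (by linarith)
      obtain ⟨n', -, hn'⟩ := ga ((κ - ‖k2 (L.h vs)‖) / 2) (by linarith)
      refine L.core2 (p := fun t => us + t * (L.x n' - us))
        (p' := fun t => L.y n + t * (vs - L.y n)) (lin_cont _ _) (lin_cont _ _) ?_ ?_
      · simp only [zero_mul, add_zero]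
        have h3 := k2_close (L.w us (L.y n)) (L.g us)
        rw [L.w_near_g] at h3
        have h4 := abs_le.1 (h3.trans hn)
        rw [← hκ]; linarith [h4.1]
      · simp only [one_mul, add_sub_cancel]
        have h3 := k2_close (L.w (L.x n') vs) (L.h vs)
        rw [L.w_near_h] at h3
        have h4 := abs_le.1 (h3.trans hn')
        rw [← hκ]; linarith [h4.2]
    · -- both bigger
      set m := min ‖k2 (L.g us)‖ ‖k2 (L.h vs)‖ with hm
      have hmκ : κ < m := lt_min h1 h2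
      have hm1 : m ≤ ‖k2 (L.g us)‖ := min_le_left _ _
      have hm2 : m ≤ ‖k2 (L.h vs)‖ := min_le_right _ _
      obtain ⟨n, hn, -⟩ := gb ((m - κ) / 2) (by linarith)
      obtain ⟨n', hn', -⟩ := ga ((m - κ) / 4) (by linarith)
      rw [abs_le] at hn hn'
      obtain ⟨v0, hv0⟩ : (κ + m) / 2 ∈ range (fun v => ‖k2 (L.h v)‖) :=
        mem_range_of_exists_le_of_exists_ge hhc ⟨L.y n, by linarith [hn.2]⟩
          ⟨vs, by linarith⟩
      simp only at hv0
      refine L.core1 (p := fun t => us + t * (L.x n' - us)) (lin_cont _ _) (v0 := v0) ?_ ?_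
      · rw [hv0]; simp only [zero_mul, add_zero]; linarith
      · rw [hv0]; simp only [one_mul, add_sub_cancel]; linarith [hn'.2]

end Lim

/-- The two factors cannot both be asymptotic to great circles. -/
theorem no_circles (W : Web) {ψ1 ψ2 : ℝ} {x y : ℕ → ℝ}
    (hx : Tendsto (fun n => |x n|) atTop atTop)
    (hA : ∀ S > 0, ∀ ε > 0, ∃ N, ∀ n ≥ N, ∀ s, |s| ≤ S →
      ‖W.a (x n + s) - W.a (x n) * Ep ψ1 s‖ ≤ ε)
    (hB : ∀ S > 0, ∀ ε > 0, ∃ N, ∀ n ≥ N, ∀ s, |s| ≤ S →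
      ‖W.b (y n + s) - Ep ψ2 s * W.b (y n)‖ ≤ ε) : False := by
  obtain ⟨⟨A, B⟩, -, φ, hφ, hlim⟩ := tendsto_subseq_of_bounded
    (isBounded_closedBall (x := (0 : ℍ[ℝ] × ℍ[ℝ])) (r := 1))
    (x := fun n => (W.a (x n), W.b (y n))) (fun n => by
      rw [mem_closedBall_zero_iff, Prod.norm_def]
      simp only [W.ua, W.ub, max_self, le_refl])
  have hlA : Tendsto (fun n => W.a (x (φ n))) atTop (𝓝 A) :=
    (continuous_fst.tendsto _).comp hlim
  have hlB : Tendsto (fun n => W.b (y (φ n))) atTop (𝓝 B) :=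
    (continuous_snd.tendsto _).comp hlim
  have uA : ‖A‖ = 1 := by
    have h1 := (continuous_norm.tendsto _).comp hlA
    refine tendsto_nhds_unique h1 ?_
    simp only [Function.comp_def, W.ua]
    exact tendsto_const_nhds
  have uB : ‖B‖ = 1 := by
    have h1 := (continuous_norm.tendsto _).comp hlB
    refine tendsto_nhds_unique h1 ?_
    simp only [Function.comp_def, W.ub]
    exact tendsto_const_nhds
  refine Lim.false (W := W) (ψ1 := ψ1) (ψ2 := ψ2)
    { x := fun n => x (φ n)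
      y := fun n => y (φ n)
      A := A
      B := B
      uA := uA
      uB := uB
      hx := hx.comp hφ.tendsto_atTop
      hA := fun S hS ε hε => ?_
      hB := fun S hS ε hε => ?_ }
  · obtain ⟨N1, hN1⟩ := hA S hS (ε / 2) (by positivity)
    have e3 : ∀ᶠ n in atTop, ‖W.a (x (φ n)) - A‖ < ε / 2 := by
      have := Metric.tendsto_nhds.1 hlA (ε / 2) (by positivity)
      simpa [dist_eq_norm] using this
    obtain ⟨N2, hN2⟩ := eventually_atTop.1
      (e3.and (hφ.tendsto_atTop.eventually (eventually_ge_atTop N1)))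
    refine ⟨N2, fun n hn s hs => ?_⟩
    obtain ⟨h1, h2⟩ := hN2 n hn
    have h3 := hN1 (φ n) h2 s hs
    have e : W.a (x (φ n) + s) - A * Ep ψ1 s =
        (W.a (x (φ n) + s) - W.a (x (φ n)) * Ep ψ1 s) + (W.a (x (φ n)) - A) * Ep ψ1 s := by
      noncomm_ring
    rw [e]
    refine (norm_add_le _ _).trans ?_
    rw [norm_mul, norm_Ep, mul_one]
    linarith
  · obtain ⟨N1, hN1⟩ := hB S hS (ε / 2) (by positivity)
    have e3 : ∀ᶠ n in atTop, ‖W.b (y (φ n)) - B‖ < ε / 2 := by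
      have := Metric.tendsto_nhds.1 hlB (ε / 2) (by positivity)
      simpa [dist_eq_norm] using this
    obtain ⟨N2, hN2⟩ := eventually_atTop.1
      (e3.and (hφ.tendsto_atTop.eventually (eventually_ge_atTop N1)))
    refine ⟨N2, fun n hn s hs => ?_⟩
    obtain ⟨h1, h2⟩ := hN2 n hn
    have h3 := hN1 (φ n) h2 s hs
    have e : W.b (y (φ n) + s) - Ep ψ2 s * B =
        (W.b (y (φ n) + s) - Ep ψ2 s * W.b (y (φ n))) + Ep ψ2 s * (W.b (y (φ n)) - B) := by
      noncomm_ring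
    rw [e]
    refine (norm_add_le _ _).trans ?_
    rw [norm_mul, norm_Ep, one_mul]
    linarith

end Pool.Agent.Helper108.Emb
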