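import Pool.Agent.Helper108.Emb.Circles
import Pool.Agent.Helper253.Emb.CaseB

set_option autoImplicit false

namespace Pool.Agent.Helper108.Emb

open Quaternion Topology Set Metric Filter
open scoped ContDiff
open Pool.Agent.Helper253 Pool.Agent.Helper253.Net Pool.Agent.Helper253.Emb

/-- Dichotomy for pairs of monotone functions with growing sum. -/
theorem dich {P Q : ℝ → ℝ} (mP : Monotone P) (mQ : Monotone Q) (cP : Continuous P)
    (cQ : Continuous Q) {σ : ℝ} (hσ : 0 < σ)
    (g : ∀ x y, x ≤ y → σ * (y - x) ≤ (P y - P x) + (Q y - Q x)) :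
    (∃ y, ∀ k > 0, Q (y - k) < Q y ∧ P y < P (y + k)) ∨
    (∃ y, ∀ k > 0, P (y - k) < P y ∧ Q y < Q (y + k)) ∨
    (∀ x y, P x = P y) ∨ (∀ x y, Q x = Q y) := by
  by_cases hPc : ∀ x y, P x = P y
  · exact Or.inr (Or.inr (Or.inl hPc))
  by_cases hQc : ∀ x y, Q x = Q y
  · exact Or.inr (Or.inr (Or.inr hQc))
  push Not at hPc hQc
  obtain ⟨y1, y2, h12⟩ : ∃ y1 y2, P y1 < P y2 := by
    obtain ⟨x, y, hxy⟩ := hPc
    rcases lt_or_gt_of_ne hxy with h | h
    · exact ⟨x, y, h⟩
    · exact ⟨y, x, h⟩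
  set S : Set ℝ := {y | P y = P y1} with hS
  have hSne : S.Nonempty := ⟨y1, rfl⟩
  have hSb : BddAbove S := ⟨y2, fun y hy => by
    by_contra hcon
    push Not at hcon
    have := mP hcon.le
    have hy' : P y = P y1 := hy
    linarith⟩
  have hScl : IsClosed S := isClosed_eq cP continuous_const
  set y0 := sSup S with hy0
  have hy0S : P y0 = P y1 := hScl.csSup_mem hSne hSb
  have hy0P : ∀ k > 0, P y0 < P (y0 + k) := by
    intro k hk
    refine lt_of_le_of_ne (mP (by linarith)) (fun h => ?_)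
    have : y0 + k ∈ S := by show P (y0 + k) = P y1; rw [← h, hy0S]
    have := le_csSup hSb this
    linarith
  by_cases hq : ∀ k > 0, Q (y0 - k) < Q y0
  · exact Or.inl ⟨y0, fun k hk => ⟨hq k hk, hy0P k hk⟩⟩
  push Not at hq
  obtain ⟨k0, hk0, hq0⟩ := hq
  have hq1 : Q (y0 - k0) = Q y0 := le_antisymm (mQ (by linarith)) hq0
  set T : Set ℝ := {y | Q y = Q y0} with hT
  have hTne : T.Nonempty := ⟨y0, rfl⟩
  have hTcl : IsClosed T := isClosed_eq cQ continuous_const
  by_cases hTb : BddBelow T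
  · left
    set y' := sInf T with hy'
    have hy'T : Q y' = Q y0 := hTcl.csInf_mem hTne hTb
    have hle : y' ≤ y0 - k0 := csInf_le hTb hq1
    refine ⟨y', fun k hk => ⟨?_, ?_⟩⟩
    · refine lt_of_le_of_ne (mQ (by linarith)) (fun h => ?_)
      have : y' - k ∈ T := by show Q (y' - k) = Q y0; rw [h, hy'T]
      have := csInf_le hTb this
      linarith
    · set z := min (y' + k) y0 with hz
      have hz1 : y' < z := lt_min (by linarith) (by linarith)
      have hz2 : z ≤ y0 := min_le_right _ _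
      have hz3 : z ≤ y' + k := min_le_left _ _
      have hz4 : Q z = Q y' := by
        rw [hy'T]
        exact le_antisymm (mQ hz2) (by rw [← hy'T]; exact mQ hz1.le)
      have h5 := g y' z hz1.le
      have h6 := mP hz3
      have h7 : 0 < σ * (z - y') := mul_pos hσ (by linarith)
      linarith
  · right; left
    have hconst : ∀ x ≤ y0, Q x = Q y0 := by
      intro x hx
      rw [not_bddBelow_iff] at hTb
      obtain ⟨t, ht, htx⟩ := hTb x
      have ht' : Q t = Q y0 := ht
      have := mQ htx.le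
      have := mQ hx
      linarith
    obtain ⟨z, hz⟩ : ∃ z, Q z ≠ Q y0 := by
      by_contra hcon
      push Not at hcon
      obtain ⟨x, y, hxy⟩ := hQc
      exact hxy (by rw [hcon x, hcon y])
    have hz0 : y0 < z := by
      by_contra hcon
      push Not at hcon
      exact hz (hconst z hcon)
    have hTa : BddAbove T := ⟨z, fun y hy => by
      by_contra hcon
      push Not at hcon
      have hy' : Q y = Q y0 := hy
      have h1 := mQ hcon.le
      have h2 := mQ hz0.le
      exact hz (by linarith)⟩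
    set y'' := sSup T with hy''
    have hy''T : Q y'' = Q y0 := hTcl.csSup_mem hTne hTa
    have hle : y0 ≤ y'' := le_csSup hTa rfl
    refine ⟨y'', fun k hk => ⟨?_, ?_⟩⟩
    · have h1 : Q (y'' - k) = Q y'' := by
        rcases le_total (y'' - k) y0 with h | h
        · rw [hconst _ h, hy''T]
        · have h2 := mQ h
          have h3 := mQ (show y'' - k ≤ y'' by linarith)
          linarith
      have h5 := g (y'' - k) y'' (by linarith)
      have h7 : 0 < σ * (y'' - (y'' - k)) := mul_pos hσ (by linarith)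
      linarith
    · refine lt_of_le_of_ne (mQ (by linarith)) (fun h => ?_)
      have : y'' + k ∈ T := by show Q (y'' + k) = Q y0; rw [← h, hy''T]
      have := le_csSup hTa this
      linarith

/-- Admissible pairs of directions. -/
structure Dir (W : Web) (lo hi : ℝ) : Prop where
  h1 : ∀ v, W.θ2 v ≤ lo
  h2 : ∀ u, lo ≤ W.θ1 u
  h3 : ∀ u, W.θ1 u ≤ hi
  h4 : ∀ v, hi ≤ W.θ2 v + Real.pi
  lt : lo < hi
  lt' : hi < lo + Real.pi

/-- The linear coordinates of the second curve. -/
noncomputable def cG (W : Web) (φ v : ℝ) : ℝ := cr (W.G v) (ei φ)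

theorem cG_deriv (W : Web) (φ v : ℝ) : HasDerivAt (cG W φ) (Real.sin (φ - W.θ2 v)) v := by
  have := Web.hasDerivAt_cr_left (W.dG v) (ei φ)
  rw [cr_ei] at this
  exact this

def NE (W : Web) (lo hi k r u : ℝ) : Prop :=
  r ≤ cG W lo u - cG W lo (u - k) ∧ r ≤ cG W hi (u + k) - cG W hi u

variable {W : Web} {lo hi : ℝ}

theorem Dir.mono_lo (D : Dir W lo hi) : Monotone (cG W lo) := by
  refine monotone_of_deriv_nonneg (fun v => (cG_deriv W lo v).differentiableAt) fun v => ?_
  rw [(cG_deriv W lo v).deriv]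
  exact Real.sin_nonneg_of_nonneg_of_le_pi (by linarith [D.h1 v])
    (by linarith [D.h4 v, D.lt])

theorem Dir.mono_hi (D : Dir W lo hi) : Monotone (cG W hi) := by
  refine monotone_of_deriv_nonneg (fun v => (cG_deriv W hi v).differentiableAt) fun v => ?_
  rw [(cG_deriv W hi v).deriv]
  exact Real.sin_nonneg_of_nonneg_of_le_pi (by linarith [D.h1 v, D.lt])
    (by linarith [D.h4 v])

theorem cG_lip (W : Web) (φ x y : ℝ) : |cG W φ x - cG W φ y| ≤ |x - y| := by
  have := Web.lip_of_deriv (cG_deriv W φ) (fun x => by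
    rw [Real.norm_eq_abs]; exact Real.abs_sin_le_one _) x y
  rwa [Real.norm_eq_abs] at this

theorem Dir.sin_sum (D : Dir W lo hi) (v : ℝ) :
    Real.sin (hi - lo) ≤ Real.sin (hi - W.θ2 v) + Real.sin (lo - W.θ2 v) := by
  have e : hi - lo = (hi - W.θ2 v) - (lo - W.θ2 v) := by ring
  rw [e, Real.sin_sub]
  have h1 : 0 ≤ Real.sin (hi - W.θ2 v) := Real.sin_nonneg_of_nonneg_of_le_pi
    (by linarith [D.h1 v, D.lt]) (by linarith [D.h4 v])
  have h2 : 0 ≤ Real.sin (lo - W.θ2 v) := Real.sin_nonneg_of_nonneg_of_le_pi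
    (by linarith [D.h1 v]) (by linarith [D.h4 v, D.lt])
  have h3 := Real.cos_le_one (lo - W.θ2 v)
  have h4 := Real.neg_one_le_cos (hi - W.θ2 v)
  nlinarith

theorem Dir.growth (D : Dir W lo hi) {x y : ℝ} (h : x ≤ y) :
    Real.sin (hi - lo) * (y - x) ≤ (cG W hi y - cG W hi x) + (cG W lo y - cG W lo x) := by
  have := Web.growth (g := fun v => cG W hi v + cG W lo v)
    (g' := fun v => Real.sin (hi - W.θ2 v) + Real.sin (lo - W.θ2 v))
    (fun v => (cG_deriv W hi v).add (cG_deriv W lo v)) D.sin_sum h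
  linarith

theorem Dir.sin_pos (D : Dir W lo hi) : 0 < Real.sin (hi - lo) :=
  Real.sin_pos_of_pos_of_lt_pi (by linarith [D.lt]) (by linarith [D.lt'])

/-- Limits of increments along the hyperfilter. -/
theorem exists_lim (W : Web) (φ : ℝ) : ∃ L : ℝ → ℝ, ∀ y,
    Tendsto (fun n : ℕ => cG W φ (n + y) - cG W φ n) (hyperfilter ℕ) (𝓝 (L y)) := by
  have h : ∀ y, ∃ l : ℝ,
      Tendsto (fun n : ℕ => cG W φ (n + y) - cG W φ n) (hyperfilter ℕ) (𝓝 l) := by
    intro y
    have hc : IsCompact (Icc (-|y|) |y|) := isCompact_Icc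
    obtain ⟨l, -, hl⟩ := hc.ultrafilter_le_nhds
      ((hyperfilter ℕ).map (fun n : ℕ => cG W φ (n + y) - cG W φ n)) (by
        rw [le_principal_iff]
        refine Filter.Eventually.of_forall (f := (hyperfilter ℕ : Filter ℕ)) fun n => ?_
        have := cG_lip W φ (n + y) n
        rw [add_sub_cancel_left] at this
        exact abs_le.1 this)
    exact ⟨l, hl⟩
  choose L hL using h
  exact ⟨L, hL⟩

theorem lim_mono {φ : ℝ} (hm : Monotone (cG W φ)) {L : ℝ → ℝ} (hL : ∀ y,
    Tendsto (fun n : ℕ => cG W φ (n + y) - cG W φ n) (hyperfilter ℕ) (𝓝 (L y))) : Monotone L := by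
  intro x y hxy
  refine le_of_tendsto_of_tendsto' (hL x) (hL y) fun n => ?_
  have := hm (show (n : ℝ) + x ≤ n + y by linarith)
  linarith

theorem lim_cont {φ : ℝ} {L : ℝ → ℝ} (hL : ∀ y,
    Tendsto (fun n : ℕ => cG W φ (n + y) - cG W φ n) (hyperfilter ℕ) (𝓝 (L y))) :
    Continuous L := by
  have h1 : LipschitzWith 1 L := by
    refine LipschitzWith.of_dist_le_mul fun x y => ?_
    rw [NNReal.coe_one, one_mul, Real.dist_eq, Real.dist_eq]
    refine le_of_tendsto ((hL x).sub (hL y)).abs (Filter.Eventually.of_forall fun n => ?_)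
    have := cG_lip W φ (n + x) (n + y)
    rw [add_sub_add_left_eq_sub] at this
    have e : cG W φ (n + x) - cG W φ n - (cG W φ (n + y) - cG W φ n) =
      cG W φ (n + x) - cG W φ (n + y) := by ring
    rw [e]
    exact this
  exact h1.continuous

/-- Diagonal extraction along the hyperfilter. -/
theorem diag (R : ℕ → ℕ → Prop) (h : ∀ j, ∀ᶠ n in (hyperfilter ℕ : Filter ℕ), R j n) :
    ∃ m : ℕ → ℕ, (∀ j, j ≤ m j) ∧ ∀ i j, i ≤ j → R i (m j) := by
  have h2 : ∀ j : ℕ, ∃ n, j ≤ n ∧ ∀ i ≤ j, R i n := by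
    intro j
    have e1 : ∀ᶠ n in (hyperfilter ℕ : Filter ℕ), ∀ i ∈ Set.Iic j, R i n := by
      rw [Filter.eventually_all_finite (Set.finite_Iic j)]
      exact fun i _ => h i
    have e2 : ∀ᶠ n in (hyperfilter ℕ : Filter ℕ), j ≤ n := by
      have h3 : (hyperfilter ℕ : Filter ℕ) ≤ atTop := by
        rw [← Nat.cofinite_eq_atTop]; exact hyperfilter_le_cofinite
      exact h3 (eventually_ge_atTop j)
    obtain ⟨n, h3, h4⟩ := (e2.and e1).exists
    exact ⟨n, h3, h4⟩
  choose m h3 h4 using h2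
  exact ⟨m, h3, fun i j hij => h4 j i hij⟩

theorem tendsto_abs_shift {m : ℕ → ℕ} (hm : ∀ j, j ≤ m j) (y : ℝ) :
    Tendsto (fun j => |(m j : ℝ) + y|) atTop atTop := by
  have h1 : Tendsto (fun j : ℕ => (j : ℝ) + y) atTop atTop :=
    tendsto_atTop_add_const_right _ _ tendsto_natCast_atTop_atTop
  refine tendsto_atTop_mono (fun j => ?_) h1
  have : (j : ℝ) ≤ m j := by exact_mod_cast hm j
  exact (by linarith : (j : ℝ) + y ≤ (m j : ℝ) + y).trans (le_abs_self _)

/-- Increasing to the left of a point for one coordinate and to the right for the other. -/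
def Fam (W : Web) (α β : ℝ) (u : ℕ → ℝ) : Prop :=
  Tendsto (fun n => |u n|) atTop atTop ∧ ∀ k > 0, ∃ r > 0, ∀ᶠ n in atTop, NE W α β k r (u n)

def Str (W : Web) (φ : ℝ) (u : ℕ → ℝ) : Prop :=
  Tendsto (fun n => |u n|) atTop atTop ∧
    ∀ S > 0, ∀ ε > 0, ∀ᶠ n in atTop, cG W φ (u n + S) - cG W φ (u n - S) ≤ ε

theorem fam_of_lim {α β : ℝ} (mα : Monotone (cG W α)) (mβ : Monotone (cG W β)) {A B : ℝ → ℝ}
    (hA : ∀ y, Tendsto (fun n : ℕ => cG W α (n + y) - cG W α n) (hyperfilter ℕ) (𝓝 (A y)))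
    (hB : ∀ y, Tendsto (fun n : ℕ => cG W β (n + y) - cG W β n) (hyperfilter ℕ) (𝓝 (B y)))
    {y : ℝ} (h : ∀ k > 0, A (y - k) < A y ∧ B y < B (y + k)) : ∃ u, Fam W α β u := by
  set kk : ℕ → ℝ := fun j => 1 / ((j : ℝ) + 1) with hkk
  have hk0 : ∀ j, 0 < kk j := fun j => by simp only [hkk]; positivity
  set rr : ℕ → ℝ := fun j => min (A y - A (y - kk j)) (B (y + kk j) - B y) / 2 with hrr
  have hr0 : ∀ j, 0 < rr j := fun j => by
    obtain ⟨h1, h2⟩ := h (kk j) (hk0 j)
    have : 0 < min (A y - A (y - kk j)) (B (y + kk j) - B y) :=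
      lt_min (by linarith) (by linarith)
    simp only [hrr]; linarith
  obtain ⟨m, hm1, hm2⟩ := diag (fun j n => NE W α β (kk j) (rr j) ((n : ℝ) + y)) (fun j => by
    obtain ⟨h1, h2⟩ := h (kk j) (hk0 j)
    have e1 : rr j < A y - A (y - kk j) := by
      have := min_le_left (A y - A (y - kk j)) (B (y + kk j) - B y)
      have h3 := hr0 j
      simp only [hrr] at h3 ⊢
      linarith
    have e2 : rr j < B (y + kk j) - B y := by
      have := min_le_right (A y - A (y - kk j)) (B (y + kk j) - B y)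
      have h3 := hr0 j
      simp only [hrr] at h3 ⊢
      linarith
    filter_upwards [((hA y).sub (hA (y - kk j))).eventually (lt_mem_nhds e1),
      ((hB (y + kk j)).sub (hB y)).eventually (lt_mem_nhds e2)] with n h3 h4
    constructor
    · have e : (n : ℝ) + y - kk j = n + (y - kk j) := by ring
      rw [e]; linarith
    · have e : (n : ℝ) + y + kk j = n + (y + kk j) := by ring
      rw [e]; linarith)
  refine ⟨fun j => (m j : ℝ) + y, tendsto_abs_shift hm1 y, fun k hk => ?_⟩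
  obtain ⟨i, hi⟩ := exists_nat_one_div_lt hk
  refine ⟨rr i, hr0 i, ?_⟩
  filter_upwards [eventually_ge_atTop i] with j hj
  obtain ⟨h1, h2⟩ := hm2 i j hj
  have hki : kk i ≤ k := hi.le
  constructor
  · have := mα (show (m j : ℝ) + y - k ≤ (m j : ℝ) + y - kk i by linarith)
    linarith
  · have := mβ (show (m j : ℝ) + y + kk i ≤ (m j : ℝ) + y + k by linarith)
    linarith

theorem str_of_lim {φ : ℝ} (mφ : Monotone (cG W φ)) {A : ℝ → ℝ}
    (hA : ∀ y, Tendsto (fun n : ℕ => cG W φ (n + y) - cG W φ n) (hyperfilter ℕ) (𝓝 (A y)))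
    (h : ∀ x y, A x = A y) : ∃ u, Str W φ u := by
  obtain ⟨m, hm1, hm2⟩ := diag (fun j n =>
    cG W φ ((n : ℝ) + j) - cG W φ ((n : ℝ) - j) ≤ 1 / ((j : ℝ) + 1)) (fun j => by
      have h1 := (hA j).sub (hA (-j))
      rw [h (j : ℝ) (-(j : ℝ)), sub_self] at h1
      filter_upwards [h1.eventually (gt_mem_nhds (show (0 : ℝ) < 1 / ((j : ℝ) + 1) by positivity))]
        with n h3
      have e : (n : ℝ) - j = n + -(j : ℝ) := by ring
      rw [e]; linarith)
  refine ⟨fun j => (m j : ℝ), ?_, fun S hS ε hε => ?_⟩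
  · have := tendsto_abs_shift hm1 0
    simpa using this
  · obtain ⟨i, hi⟩ := exists_nat_one_div_lt hε
    obtain ⟨i', hi'⟩ := exists_nat_gt S
    filter_upwards [eventually_ge_atTop (max i i')] with j hj
    have h1 := hm2 (max i i') j hj
    have h2 : (i : ℝ) ≤ (max i i' : ℕ) := by exact_mod_cast le_max_left i i'
    have h3 : (i' : ℝ) ≤ (max i i' : ℕ) := by exact_mod_cast le_max_right i i'
    have h4 : 1 / (((max i i' : ℕ) : ℝ) + 1) ≤ 1 / ((i : ℝ) + 1) := by
      apply one_div_le_one_div_of_le (by positivity) (by linarith)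
    have h5 := mφ (show (m j : ℝ) + S ≤ (m j : ℝ) + (max i i' : ℕ) by linarith)
    have h6 := mφ (show (m j : ℝ) - (max i i' : ℕ) ≤ (m j : ℝ) - S by linarith)
    linarith

/-- The dichotomy for the second curve of a web. -/
theorem Dir.dichotomy (D : Dir W lo hi) : (∃ u, Fam W lo hi u) ∨ (∃ u, Fam W hi lo u) ∨
    (∃ u, Str W hi u) ∨ (∃ u, Str W lo u) := by
  obtain ⟨P, hP⟩ := exists_lim W hi
  obtain ⟨Q, hQ⟩ := exists_lim W lo
  have hg : ∀ x y, x ≤ y → Real.sin (hi - lo) * (y - x) ≤ (P y - P x) + (Q y - Q x) := by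
    intro x y hxy
    refine ge_of_tendsto (((hP y).sub (hP x)).add ((hQ y).sub (hQ x)))
      (Filter.Eventually.of_forall fun n => ?_)
    have := D.growth (show (n : ℝ) + x ≤ n + y by linarith)
    have e : (n : ℝ) + y - (n + x) = y - x := by ring
    rw [e] at this
    linarith
  rcases dich (lim_mono D.mono_hi hP) (lim_mono D.mono_lo hQ) (lim_cont hP) (lim_cont hQ)
    D.sin_pos hg with ⟨y, h⟩ | ⟨y, h⟩ | h | h
  · exact Or.inl (fam_of_lim D.mono_lo D.mono_hi hQ hP h)
  · exact Or.inr (Or.inl (fam_of_lim D.mono_hi D.mono_lo hP hQ h))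
  · exact Or.inr (Or.inr (Or.inl (str_of_lim D.mono_hi hP h)))
  · exact Or.inr (Or.inr (Or.inr (str_of_lim D.mono_lo hQ h)))

end Pool.Agent.Helper108.Emb
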