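import Pool.Agent.Helper253.Emb.Par

set_option autoImplicit false

namespace Pool.Agent.Helper108.Emb

open Quaternion Topology Set Metric Filter
open Pool.Agent.Helper253 Pool.Agent.Helper253.Net Pool.Agent.Helper253.Emb

set_option maxHeartbeats 4000000 in
/-- A family of tori crossing the level of `q` hits `q`, stably under perturbations. -/
theorem hit {w : ℝ → ℍ[ℝ]} (hw : Continuous w) (uw : ∀ t, ‖w t‖ = 1) {q : ℍ[ℝ]} (uq : ‖q‖ = 1)
    (h0 : ‖k2 q‖ < ‖k2 (w 0)‖) (h1 : ‖k2 (w 1)‖ < ‖k2 q‖) :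
    ∃ C : ℝ, 0 ≤ C ∧ ∃ ε : ℝ, 0 < ε ∧ ∀ Φ : ℝ → ℝ → ℝ → ℍ[ℝ],
      Continuous (fun p : ℝ × ℝ × ℝ => Φ p.1 p.2.1 p.2.2) →
      (∀ t x y, ‖Φ t x y‖ = 1) →
      (∀ t x y, t ∈ Icc (0 : ℝ) 1 → |x| ≤ C → |y| ≤ C →
        ‖Φ t x y - Ei (-x) * w t * Ei y‖ ≤ ε) →
      ∃ t x y, t ∈ Icc (0 : ℝ) 1 ∧ |x| ≤ C ∧ |y| ≤ C ∧ Φ t x y = q := by
  set κ : ℝ := ‖k2 q‖ with hκ
  have hw0 : ‖k2 (w 0)‖ ≤ 1 := by rw [← uw 0]; exact norm_k2_le _
  have hw1' : 0 ≤ ‖k2 (w 1)‖ := norm_nonneg _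
  set δ : ℝ := min (‖k2 (w 0)‖ - κ) (κ - ‖k2 (w 1)‖) / 2 with hδd
  have hδ0 : 0 < δ := by
    have : 0 < min (‖k2 (w 0)‖ - κ) (κ - ‖k2 (w 1)‖) := lt_min (by linarith) (by linarith)
    positivity
  have hδ1 : κ + δ < ‖k2 (w 0)‖ := by
    have : min (‖k2 (w 0)‖ - κ) (κ - ‖k2 (w 1)‖) ≤ ‖k2 (w 0)‖ - κ := min_le_left _ _
    rw [hδd]; linarith
  have hδ2 : ‖k2 (w 1)‖ < κ - δ := by
    have : min (‖k2 (w 0)‖ - κ) (κ - ‖k2 (w 1)‖) ≤ κ - ‖k2 (w 1)‖ := min_le_right _ _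
    rw [hδd]; linarith
  have hκδ : 0 < κ - δ := by linarith
  have hκδ1 : κ + δ < 1 := by linarith
  have hκ0 : 0 < κ := by linarith
  set M : ℝ → ℝ := fun l => ‖k2 (w l)‖ with hM
  have hMc : Continuous M := by rw [hM]; fun_prop
  obtain ⟨lm, hlm, hlmin⟩ := (isCompact_Icc.inter_right (isClosed_le hMc
    (continuous_const (y := κ - δ)))).exists_isLeast
    (show (Icc (0 : ℝ) 1 ∩ {l | M l ≤ κ - δ}).Nonempty from
      ⟨1, ⟨zero_le_one, le_refl 1⟩, hδ2.le⟩)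
  have hMlm : M lm = κ - δ := by
    obtain ⟨l', hl', hl'e⟩ := intermediate_value_Icc' hlm.1.1 hMc.continuousOn
      (show κ - δ ∈ Icc (M lm) (M 0) from ⟨hlm.2, by simp only [hM]; linarith⟩)
    have h1 := hlmin (show l' ∈ Icc (0 : ℝ) 1 ∩ {l | M l ≤ κ - δ} from
      ⟨⟨hl'.1, hl'.2.trans hlm.1.2⟩, hl'e.le⟩)
    rw [← le_antisymm hl'.2 h1]; exact hl'e
  have hMlow : ∀ l ∈ Icc (0 : ℝ) lm, κ - δ ≤ M l := by
    intro l hl
    by_contra hcon
    push Not at hcon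
    have h1 := hlmin (show l ∈ Icc (0 : ℝ) 1 ∩ {l | M l ≤ κ - δ} from
      ⟨⟨hl.1, hl.2.trans hlm.1.2⟩, hcon.le⟩)
    rw [le_antisymm hl.2 h1] at hcon
    linarith
  obtain ⟨lp, hlp, hlmax⟩ := (isCompact_Icc.inter_right (isClosed_le
    (continuous_const (y := κ + δ)) hMc)).exists_isGreatest
    (show (Icc (0 : ℝ) lm ∩ {l | κ + δ ≤ M l}).Nonempty from
      ⟨0, ⟨le_refl 0, hlm.1.1⟩, hδ1.le⟩)
  have hMlp : M lp = κ + δ := by
    obtain ⟨l', hl', hl'e⟩ := intermediate_value_Icc' hlp.1.2 hMc.continuousOn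
      (show κ + δ ∈ Icc (M lm) (M lp) from ⟨by linarith, hlp.2⟩)
    have h1 := hlmax (show l' ∈ Icc (0 : ℝ) lm ∩ {l | κ + δ ≤ M l} from
      ⟨⟨hlp.1.1.trans hl'.1, hl'.2⟩, hl'e.ge⟩)
    rw [← le_antisymm h1 hl'.1]; exact hl'e
  have hMhigh : ∀ l ∈ Icc lp lm, M l ≤ κ + δ := by
    intro l hl
    by_contra hcon
    push Not at hcon
    have h1 := hlmax (show l ∈ Icc (0 : ℝ) lm ∩ {l | κ + δ ≤ M l} from
      ⟨⟨hlp.1.1.trans hl.1, hl.2⟩, hcon.le⟩)
    rw [le_antisymm h1 hl.1] at hcon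
    linarith
  -- the clamped parameter
  set lam : ℝ → ℝ := fun t => lp + (lm - lp) * ((1 - cl t) / 2) with hlam
  have hlamc : Continuous lam := by
    rw [hlam]; have := cl_cont; fun_prop
  have hlamm : ∀ t, lam t ∈ Icc lp lm := by
    intro t
    have h1 := cl_mem t
    have h2 := hlp.1.2
    simp only [hlam]
    constructor
    · have : 0 ≤ (lm - lp) * ((1 - cl t) / 2) := mul_nonneg (by linarith) (by linarith [h1.2])
      linarith
    · have : (lm - lp) * ((1 - cl t) / 2) ≤ (lm - lp) * 1 :=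
        mul_le_mul_of_nonneg_left (by linarith [h1.1]) (by linarith)
      linarith
  have hlam01 : ∀ t, lam t ∈ Icc (0 : ℝ) 1 := fun t =>
    ⟨hlp.1.1.trans (hlamm t).1, (hlamm t).2.trans hlm.1.2⟩
  have hMb : ∀ t, κ - δ ≤ ‖k2 (w (lam t))‖ ∧ ‖k2 (w (lam t))‖ ≤ κ + δ :=
    fun t => ⟨hMlow _ ⟨hlp.1.1.trans (hlamm t).1, (hlamm t).2⟩, hMhigh _ (hlamm t)⟩
  -- lower bound for the first components
  set m1 : ℝ := Real.sqrt (1 - (κ + δ) ^ 2) with hm1
  have hm1p : 0 < 1 - (κ + δ) ^ 2 := by nlinarith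
  have hm10 : 0 < m1 := Real.sqrt_pos.2 hm1p
  have hm1sq : m1 ^ 2 = 1 - (κ + δ) ^ 2 := Real.sq_sqrt hm1p.le
  have hk1q : m1 ≤ ‖k1 q‖ := by
    apply (sq_le_sq₀ hm10.le (norm_nonneg _)).1
    have h2 := norm_k q
    rw [uq] at h2
    rw [hm1sq]
    nlinarith
  have hk1w : ∀ t, m1 ≤ ‖k1 (w (lam t))‖ := by
    intro t
    apply (sq_le_sq₀ hm10.le (norm_nonneg _)).1
    have h2 := norm_k (w (lam t))
    rw [uw] at h2
    rw [hm1sq]
    have h3 := (hMb t).2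
    have h4 := norm_nonneg (k2 (w (lam t)))
    nlinarith
  set m : ℝ := min (m1 ^ 2) ((κ - δ) ^ 2) with hmd
  have hm0 : 0 < m := lt_min (by positivity) (by positivity)
  have hmm1 : m ≤ m1 ^ 2 := min_le_left _ _
  have hmm2 : m ≤ (κ - δ) ^ 2 := min_le_right _ _
  -- phases
  set w1 : ℝ → ℂ := fun t => k1 q * (starRingEnd ℂ) (k1 (w (lam t))) with hw1
  set w2 : ℝ → ℂ := fun t => k2 q * (starRingEnd ℂ) (k2 (w (lam t))) with hw2
  have hw1n : ∀ t, ‖w1 t‖ = ‖k1 q‖ * ‖k1 (w (lam t))‖ := fun t => by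
    simp only [hw1]; rw [norm_mul, Complex.norm_conj]
  have hw2n : ∀ t, ‖w2 t‖ = ‖k2 q‖ * ‖k2 (w (lam t))‖ := fun t => by
    simp only [hw2]; rw [norm_mul, Complex.norm_conj]
  have hw1l : ∀ t, m ≤ ‖w1 t‖ := by
    intro t
    rw [hw1n]
    have := mul_le_mul hk1q (hk1w t) hm10.le (norm_nonneg _)
    nlinarith
  have hw2l : ∀ t, m ≤ ‖w2 t‖ := by
    intro t
    rw [hw2n, ← hκ]
    have h2 := (hMb t).1
    have := mul_le_mul (show κ - δ ≤ κ by linarith) h2 hκδ.le hκ0.le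
    nlinarith
  have hw1c : Continuous w1 := by
    simp only [hw1]
    exact continuous_const.mul (Complex.continuous_conj.comp (k1.continuous.comp
      (hw.comp hlamc)))
  have hw2c : Continuous w2 := by
    simp only [hw2]
    exact continuous_const.mul (Complex.continuous_conj.comp (k2.continuous.comp
      (hw.comp hlamc)))
  obtain ⟨φ1, hφ1c, hφ1⟩ := exists_angle hw1c (fun t ht => by
    have := hw1l t
    rw [ht, norm_zero] at this
    linarith)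
  obtain ⟨φ2, hφ2c, hφ2⟩ := exists_angle hw2c (fun t ht => by
    have := hw2l t
    rw [ht, norm_zero] at this
    linarith)
  -- bounds for the phases
  obtain ⟨C, hC⟩ : ∃ C, ∀ t ∈ Icc (-1 : ℝ) 1, |φ1 t| + |φ2 t| ≤ C := by
    obtain ⟨t0, -, ht0⟩ := (isCompact_Icc (a := (-1 : ℝ)) (b := 1)).exists_isMaxOn
      ⟨0, by constructor <;> norm_num⟩ (show ContinuousOn (fun t => |φ1 t| + |φ2 t|) _ from
        (hφ1c.abs.add hφ2c.abs).continuousOn)
    exact ⟨_, fun t ht => ht0 ht⟩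
  have hC0 : 0 ≤ C := (add_nonneg (abs_nonneg _) (abs_nonneg _)).trans
    (hC 0 (by constructor <;> norm_num))
  set ε : ℝ := min (m / 4) (δ / 2) with hε
  have hε0 : 0 < ε := lt_min (by positivity) (by positivity)
  have hεm : ε ≤ m / 4 := min_le_left _ _
  have hεδ : ε ≤ δ / 2 := min_le_right _ _
  refine ⟨C + 1, by linarith, ε, hε0, fun Φ hΦc hΦu hΦ => ?_⟩
  -- the shifts
  set s : (Fin 3 → ℝ) → ℝ := fun p => ((φ1 (p 2) + p 0) - (φ2 (p 2) + p 1)) / 2 with hs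
  set s' : (Fin 3 → ℝ) → ℝ := fun p => -((φ1 (p 2) + p 0) + (φ2 (p 2) + p 1)) / 2 with hs'
  have hsc : Continuous s := by rw [hs]; fun_prop
  have hsc' : Continuous s' := by rw [hs']; fun_prop
  have hsb : ∀ p : Fin 3 → ℝ, (∀ j, p j ∈ Icc (-1 : ℝ) 1) → |s p| ≤ C + 1 ∧ |s' p| ≤ C + 1 := by
    intro p hp
    have h1 := hC (p 2) (hp 2)
    have h2 := hp 0
    have h3 := hp 1
    have h4 := abs_le.1 (le_refl |φ1 (p 2)|)
    have h5 := abs_le.1 (le_refl |φ2 (p 2)|)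
    simp only [hs, hs']
    constructor <;> rw [abs_le] <;> constructor <;> linarith [h2.1, h2.2, h3.1, h3.2, h4.1, h4.2,
      h5.1, h5.2]
  set Gn : (Fin 3 → ℝ) → ℍ[ℝ] := fun p => Φ (lam (p 2)) (s' p) (s p) with hGn
  have hGnc : Continuous Gn := by
    have h2 : Continuous (fun p : Fin 3 → ℝ => ((lam (p 2), s' p, s p) : ℝ × ℝ × ℝ)) := by
      fun_prop
    exact hΦc.comp h2
  have hGnu : ∀ p, ‖Gn p‖ = 1 := fun p => hΦu _ _ _
  set Gi : (Fin 3 → ℝ) → ℍ[ℝ] := fun p => Ei (-(s' p)) * w (lam (p 2)) * Ei (s p) with hGi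
  have hclose : ∀ p : Fin 3 → ℝ, (∀ j, p j ∈ Icc (-1 : ℝ) 1) → ‖Gn p - Gi p‖ ≤ ε := by
    intro p hp
    obtain ⟨b1, b2⟩ := hsb p hp
    exact hΦ _ _ _ (hlam01 _) b2 b1
  have hi1 : ∀ p, k1 (Gi p) * (starRingEnd ℂ) (k1 q) = (‖w1 (p 2)‖ : ℂ) * ei (p 0) := by
    intro p
    simp only [hGi]
    rw [k1_conj]
    have e1 : -(s' p) + s p = φ1 (p 2) + p 0 := by simp only [hs, hs']; ring
    rw [e1]
    have e2 : k1 (w (lam (p 2))) * (starRingEnd ℂ) (k1 q) =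
        (starRingEnd ℂ) (w1 (p 2)) := by
      simp only [hw1, map_mul, Complex.conj_conj]; ring
    rw [mul_assoc, e2]
    conv_lhs => rw [hφ1 (p 2)]
    rw [map_mul, Complex.conj_ofReal]
    have e3 : ei (φ1 (p 2) + p 0) = ei (φ1 (p 2)) * ei (p 0) := by
      simp only [ei]; rw [← Complex.exp_add]; congr 1; push_cast; ring
    have e4 : ei (φ1 (p 2)) * (starRingEnd ℂ) (ei (φ1 (p 2))) = 1 := by
      rw [Complex.mul_conj, Complex.normSq_eq_norm_sq, norm_ei]; simp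
    rw [e3]
    linear_combination ((‖w1 (p 2)‖ : ℂ) * ei (p 0)) * e4
  have hi2 : ∀ p, k2 (Gi p) * (starRingEnd ℂ) (k2 q) = (‖w2 (p 2)‖ : ℂ) * ei (p 1) := by
    intro p
    simp only [hGi]
    rw [k2_conj]
    have e1 : -(s' p) - s p = φ2 (p 2) + p 1 := by simp only [hs, hs']; ring
    rw [e1]
    have e2 : k2 (w (lam (p 2))) * (starRingEnd ℂ) (k2 q) =
        (starRingEnd ℂ) (w2 (p 2)) := by
      simp only [hw2, map_mul, Complex.conj_conj]; ring
    rw [mul_assoc, e2]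
    conv_lhs => rw [hφ2 (p 2)]
    rw [map_mul, Complex.conj_ofReal]
    have e3 : ei (φ2 (p 2) + p 1) = ei (φ2 (p 2)) * ei (p 1) := by
      simp only [ei]; rw [← Complex.exp_add]; congr 1; push_cast; ring
    have e4 : ei (φ2 (p 2)) * (starRingEnd ℂ) (ei (φ2 (p 2))) = 1 := by
      rw [Complex.mul_conj, Complex.normSq_eq_norm_sq, norm_ei]; simp
    rw [e3]
    linear_combination ((‖w2 (p 2)‖ : ℂ) * ei (p 1)) * e4
  have hi3 : ∀ p, ‖k2 (Gi p)‖ = ‖k2 (w (lam (p 2)))‖ := by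
    intro p
    simp only [hGi]
    rw [k2_conj, norm_mul, norm_ei, one_mul]
  -- perturbation estimates
  have hp1 : ∀ p : Fin 3 → ℝ, (∀ j, p j ∈ Icc (-1 : ℝ) 1) →
      ‖k1 (Gn p) * (starRingEnd ℂ) (k1 q) - (‖w1 (p 2)‖ : ℂ) * ei (p 0)‖ ≤ ε := by
    intro p hp
    rw [← hi1 p, ← sub_mul, ← map_sub, norm_mul, Complex.norm_conj]
    have h1 := (norm_k1_le (Gn p - Gi p)).trans (hclose p hp)
    have h2 : ‖k1 q‖ ≤ 1 := by rw [← uq]; exact norm_k1_le _
    have h3 := mul_le_mul h1 h2 (norm_nonneg _) (by positivity)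
    linarith
  have hp2 : ∀ p : Fin 3 → ℝ, (∀ j, p j ∈ Icc (-1 : ℝ) 1) →
      ‖k2 (Gn p) * (starRingEnd ℂ) (k2 q) - (‖w2 (p 2)‖ : ℂ) * ei (p 1)‖ ≤ ε := by
    intro p hp
    rw [← hi2 p, ← sub_mul, ← map_sub, norm_mul, Complex.norm_conj]
    have h1 := (norm_k2_le (Gn p - Gi p)).trans (hclose p hp)
    have h2 : ‖k2 q‖ ≤ 1 := by rw [← uq]; exact norm_k2_le _
    have h3 := mul_le_mul h1 h2 (norm_nonneg _) (by positivity)
    linarith
  have hp3 : ∀ p : Fin 3 → ℝ, (∀ j, p j ∈ Icc (-1 : ℝ) 1) →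
      |‖k2 (Gn p)‖ - ‖k2 (w (lam (p 2)))‖| ≤ ε := by
    intro p hp
    rw [← hi3 p]
    have h1 := abs_norm_sub_norm_le (k2 (Gn p)) (k2 (Gi p))
    rw [← map_sub] at h1
    exact h1.trans ((norm_k2_le _).trans (hclose p hp))
  have him : ∀ (r t : ℝ), ((r : ℂ) * ei t).im = r * Real.sin t := fun r t => by
    rw [Complex.im_ofReal_mul, ei_im]
  have hre : ∀ (r t : ℝ), ((r : ℂ) * ei t).re = r * Real.cos t := fun r t => by
    rw [Complex.re_ofReal_mul, ei_re]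
  have himd : ∀ z w : ℂ, |z.im - w.im| ≤ ‖z - w‖ := fun z w => by
    rw [← Complex.sub_im]; exact Complex.abs_im_le_norm _
  have hred : ∀ z w : ℂ, |z.re - w.re| ≤ ‖z - w‖ := fun z w => by
    rw [← Complex.sub_re]; exact Complex.abs_re_le_norm _
  have hsin1 : 3 / 4 < Real.sin 1 := by
    have := Real.sin_gt_sub_cube (x := 1) one_pos
    norm_num at this
    linarith
  obtain ⟨p, hpm, hp0⟩ := miranda (fun p => ![(k1 (Gn p) * (starRingEnd ℂ) (k1 q)).im,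
      (k2 (Gn p) * (starRingEnd ℂ) (k2 q)).im, ‖k2 (Gn p)‖ - κ])
    (by
      refine continuous_pi fun j => ?_
      have c1 : Continuous (fun p => (k1 (Gn p) * (starRingEnd ℂ) (k1 q)).im) :=
        Complex.continuous_im.comp ((k1.continuous.comp hGnc).mul continuous_const)
      have c2 : Continuous (fun p => (k2 (Gn p) * (starRingEnd ℂ) (k2 q)).im) :=
        Complex.continuous_im.comp ((k2.continuous.comp hGnc).mul continuous_const)
      have c3 : Continuous (fun p => ‖k2 (Gn p)‖ - κ) :=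
        (k2.continuous.comp hGnc).norm.sub continuous_const
      fin_cases j
      · exact c1
      · exact c2
      · exact c3)
    (by
      intro p i hp hi
      fin_cases i
      · show 0 < (k1 (Gn p) * (starRingEnd ℂ) (k1 q)).im
        have h1 := (himd _ _).trans (hp1 p hp)
        have hi' : p 0 = 1 := hi
        rw [him, hi', abs_le] at h1
        have h2 := hw1l (p 2)
        nlinarith [h1.1]
      · show 0 < (k2 (Gn p) * (starRingEnd ℂ) (k2 q)).im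
        have h1 := (himd _ _).trans (hp2 p hp)
        have hi' : p 1 = 1 := hi
        rw [him, hi', abs_le] at h1
        have h2 := hw2l (p 2)
        nlinarith [h1.1]
      · show 0 < ‖k2 (Gn p)‖ - κ
        have h1 := hp3 p hp
        have hi' : p 2 = 1 := hi
        have h2 : lam 1 = lp := by
          simp only [hlam]; rw [cl_of_ge le_rfl]; ring
        rw [hi', h2] at h1
        have h3 : ‖k2 (w lp)‖ = κ + δ := hMlp
        rw [h3, abs_le] at h1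
        linarith [h1.1])
    (by
      intro p i hp hi
      fin_cases i
      · show (k1 (Gn p) * (starRingEnd ℂ) (k1 q)).im < 0
        have h1 := (himd _ _).trans (hp1 p hp)
        have hi' : p 0 = -1 := hi
        rw [him, hi', Real.sin_neg, abs_le] at h1
        have h2 := hw1l (p 2)
        nlinarith [h1.2]
      · show (k2 (Gn p) * (starRingEnd ℂ) (k2 q)).im < 0
        have h1 := (himd _ _).trans (hp2 p hp)
        have hi' : p 1 = -1 := hi
        rw [him, hi', Real.sin_neg, abs_le] at h1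
        have h2 := hw2l (p 2)
        nlinarith [h1.2]
      · show ‖k2 (Gn p)‖ - κ < 0
        have h1 := hp3 p hp
        have hi' : p 2 = -1 := hi
        have h2 : lam (-1) = lm := by
          simp only [hlam]; rw [cl_of_le le_rfl]; ring
        rw [hi', h2] at h1
        have h3 : ‖k2 (w lm)‖ = κ - δ := hMlm
        rw [h3, abs_le] at h1
        linarith [h1.2])
  have z1 : (k1 (Gn p) * (starRingEnd ℂ) (k1 q)).im = 0 := congrFun hp0 0
  have z2 : (k2 (Gn p) * (starRingEnd ℂ) (k2 q)).im = 0 := congrFun hp0 1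
  have z3 : ‖k2 (Gn p)‖ - κ = 0 := congrFun hp0 2
  have hcos : ∀ t ∈ Icc (-1 : ℝ) 1, 1 / 2 ≤ Real.cos t := fun t ht => by
    have h1 := Real.one_sub_sq_div_two_le_cos (x := t)
    nlinarith [ht.1, ht.2]
  have y1 : 0 < (k1 (Gn p) * (starRingEnd ℂ) (k1 q)).re := by
    have h1 := (hred _ _).trans (hp1 p hpm)
    rw [hre, abs_le] at h1
    have h2 := hw1l (p 2)
    have h3 := hcos (p 0) (hpm 0)
    nlinarith [h1.1]
  have y2 : 0 < (k2 (Gn p) * (starRingEnd ℂ) (k2 q)).re := by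
    have h1 := (hred _ _).trans (hp2 p hpm)
    rw [hre, abs_le] at h1
    have h2 := hw2l (p 2)
    have h3 := hcos (p 1) (hpm 1)
    nlinarith [h1.1]
  have hk2eq : k2 (Gn p) = k2 q := eq_of_phase (by rw [← hκ]; linarith) z2 y2
  have hk1eq : k1 (Gn p) = k1 q := by
    refine eq_of_phase ?_ z1 y1
    have h1 := norm_k (Gn p)
    have h2 := norm_k q
    rw [hGnu, hk2eq] at h1
    rw [uq] at h2
    have h3 : ‖k1 (Gn p)‖ ^ 2 = ‖k1 q‖ ^ 2 := by linarith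
    exact (sq_eq_sq₀ (norm_nonneg _) (norm_nonneg _)).1 h3
  have hfin : Gn p = q := ext_k hk1eq hk2eq
  exact ⟨lam (p 2), s' p, s p, hlam01 _, (hsb p hpm).2, (hsb p hpm).1, hfin⟩

end Pool.Agent.Helper108.Emb
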